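import Mathlib

/-!
Project TL (helper774): an explicit Tonelli Lagrangian on the torus T^n all of whose perturbations by
potentials have an open set of escaping orbits.  Definitions and the statements (Props) of the parts.
-/

set_option autoImplicit false

namespace Pool.Agent.W774.TL

open Set Filter Topology

/-- `S u = sin(2 pi u) / (2 pi)`, so `S' = Co`. -/
noncomputable def S (u : ℝ) : ℝ := Real.sin (2 * Real.pi * u) / (2 * Real.pi)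

/-- `Co u = cos (2 pi u)`. -/
noncomputable def Co (u : ℝ) : ℝ := Real.cos (2 * Real.pi * u)

/-- potential attached to the integer velocity `j`. -/
noncomputable def V (j : ℤ) (x t : ℝ) : ℝ := (3 : ℝ) ^ j.natAbs * (3 / 4 + S (x - j * t))

noncomputable def E (j : ℤ) (x p t : ℝ) : ℝ := Real.exp (j * p - V j x t)

noncomputable def Z (x p t : ℝ) : ℝ := ∑' j : ℤ, E j x p t

/-- the one-dimensional Hamiltonian. -/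
noncomputable def h (x p t : ℝ) : ℝ := Real.log (Z x p t)

/-- its `p`-derivative (Gibbs mean of `j`). -/
noncomputable def hp (x p t : ℝ) : ℝ := (∑' j : ℤ, (j : ℝ) * E j x p t) / Z x p t

/-- minus its `x`-derivative. -/
noncomputable def fo (x p t : ℝ) : ℝ :=
  (∑' j : ℤ, (3 : ℝ) ^ j.natAbs * Co (x - j * t) * E j x p t) / Z x p t

/-! ### series -/

def P_SUM : Prop := ∀ (k : ℕ) (R : ℝ), ∃ u : ℤ → ℝ, Summable u ∧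
  ∀ (j : ℤ) (x p t : ℝ), |p| ≤ R → ((3 : ℝ) ^ j.natAbs) ^ k * E j x p t ≤ u j

def P_SMOOTH : Prop :=
  ContDiff ℝ (⊤ : ℕ∞) (fun q : ℝ × ℝ × ℝ => Z q.1 q.2.1 q.2.2)

def P_DER : Prop := ∀ x p t : ℝ, 0 < Z x p t ∧
  HasDerivAt (fun s => Z x s t) (∑' j : ℤ, (j : ℝ) * E j x p t) p ∧
  HasDerivAt (fun s => Z s p t) (-∑' j : ℤ, (3 : ℝ) ^ j.natAbs * Co (x - j * t) * E j x p t) x ∧
  HasDerivAt (fun s => ∑' j : ℤ, (j : ℝ) * E j x s t) (∑' j : ℤ, (j : ℝ) ^ 2 * E j x p t) p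

def P_CVX : Prop := ∀ x p t : ℝ,
  (∑' j : ℤ, (j : ℝ) * E j x p t) ^ 2 < (∑' j : ℤ, (j : ℝ) ^ 2 * E j x p t) * (∑' j : ℤ, E j x p t)

def P_SUP : Prop := (∀ K : ℝ, ∃ B : ℝ, ∀ x p t : ℝ, K * |p| - B ≤ h x p t) ∧
  (∀ R : ℝ, ∃ B : ℝ, ∀ x p t : ℝ, |p| ≤ R → h x p t ≤ B)

def P_GROW : Prop := ∀ x p t : ℝ, |fo x p t| ≤ 12 * |p| + 100 ∧ |hp x p t| ≤ 12 * |p| + 100

/-! ### one-dimensional Legendre duality -/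

def P_LEG : Prop := ∀ H : ℝ → ℝ → ℝ → ℝ,
  ContDiff ℝ (⊤ : ℕ∞) (fun q : ℝ × ℝ × ℝ => H q.1 q.2.1 q.2.2) →
  (∀ x p t : ℝ, 0 < deriv (deriv (fun s => H x s t)) p) →
  (∀ K : ℝ, ∃ B : ℝ, ∀ x p t : ℝ, K * |p| - B ≤ H x p t) →
  (∀ R : ℝ, ∃ B : ℝ, ∀ x p t : ℝ, |p| ≤ R → H x p t ≤ B) →
  (∀ x p t : ℝ, H (x + 1) p t = H x p t ∧ H x p (t + 1) = H x p t) →
  ∃ l P : ℝ → ℝ → ℝ → ℝ,
    ContDiff ℝ (⊤ : ℕ∞) (fun q : ℝ × ℝ × ℝ => l q.1 q.2.1 q.2.2) ∧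
    ContDiff ℝ (⊤ : ℕ∞) (fun q : ℝ × ℝ × ℝ => P q.1 q.2.1 q.2.2) ∧
    (∀ x v t : ℝ, deriv (fun s => H x s t) (P x v t) = v) ∧
    (∀ x p t : ℝ, P x (deriv (fun s => H x s t) p) t = p) ∧
    (∀ x v t : ℝ, HasDerivAt (fun s => l x s t) (P x v t) v) ∧
    (∀ x v t : ℝ, HasDerivAt (fun s => l s v t) (-deriv (fun s => H s (P x v t) t) x) x) ∧
    (∀ x v t : ℝ, 0 < deriv (fun s => P x s t) v) ∧
    (∀ K : ℝ, ∃ B : ℝ, ∀ x v t : ℝ, K * |v| - B ≤ l x v t) ∧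
    (∀ x v t : ℝ, l (x + 1) v t = l x v t ∧ l x v (t + 1) = l x v t)

/-! ### domination by two neighbouring states -/

/-- region before the crossing; `A = 3^k`, `tau = t - (k+1)`, `a = x - k t - N`. -/
def R1 (A τ a p : ℝ) : Prop :=
  -1 / 2 ≤ τ ∧ τ ≤ 1 / 100 ∧ |a| ≤ 1 / 100 ∧ |p - A * (3 / 2 + τ)| ≤ A / 50

/-- region after the crossing. -/
def R3 (A τ a p : ℝ) : Prop :=
  -1 / 100 ≤ τ ∧ τ ≤ 1 / 2 ∧ |a - τ| ≤ 1 / 100 ∧ |p - A * (3 / 2 + 3 * τ)| ≤ A / 50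

def P_DOM1 : Prop := ∀ (k : ℕ) (N : ℤ) (τ a p : ℝ), R1 (3 ^ k) τ a p →
  ∀ j : ℤ, j ≠ (k : ℤ) → j ≠ (k : ℤ) + 1 →
    V (k : ℤ) (a + k * (τ + (k + 1)) + N) (τ + (k + 1)) - k * p
      + (1 / 50) * ((3 : ℝ) ^ k + (3 : ℝ) ^ j.natAbs)
      ≤ V j (a + k * (τ + (k + 1)) + N) (τ + (k + 1)) - j * p

def P_DOM3 : Prop := ∀ (k : ℕ) (N : ℤ) (τ a p : ℝ), R3 (3 ^ k) τ a p →
  ∀ j : ℤ, j ≠ (k : ℤ) → j ≠ (k : ℤ) + 1 →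
    V ((k : ℤ) + 1) (a + k * (τ + (k + 1)) + N) (τ + (k + 1)) - (k + 1) * p
      + (1 / 50) * ((3 : ℝ) ^ k + (3 : ℝ) ^ j.natAbs)
      ≤ V j (a + k * (τ + (k + 1)) + N) (τ + (k + 1)) - j * p

noncomputable def yy (A τ a p : ℝ) : ℝ := p - A * (3 / 2 + 3 * S (a - τ) - S a)

noncomputable def sg (y : ℝ) : ℝ := Real.exp y / (1 + Real.exp y)

def P_TWO : Prop := ∃ K0 : ℕ, ∀ (k : ℕ), K0 ≤ k → ∀ (N : ℤ) (τ a p : ℝ),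
  (R1 (3 ^ k) τ a p ∨ R3 (3 ^ k) τ a p) →
    |hp (a + k * (τ + (k + 1)) + N) p (τ + (k + 1)) - k - sg (yy (3 ^ k) τ a p)|
        ≤ 1 / ((3 : ℝ) ^ k) ^ 2 ∧
    |fo (a + k * (τ + (k + 1)) + N) p (τ + (k + 1))
        - 3 ^ k * ((1 - sg (yy (3 ^ k) τ a p)) * Co a + 3 * sg (yy (3 ^ k) τ a p) * Co (a - τ))| ≤ 1

/-! ### the one-step lemma -/

/-- the differential system, known only inside the regions. -/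
def Sys (A G : ℝ) (a p a' p' : ℝ → ℝ) (l r : ℝ) : Prop :=
  ∀ τ ∈ Icc l r, HasDerivAt a (a' τ) τ ∧ HasDerivAt p (p' τ) τ ∧
    ((R1 A τ (a τ) (p τ) ∨ R3 A τ (a τ) (p τ)) →
      |a' τ - sg (yy A τ (a τ) (p τ))| ≤ 1 / A ^ 2 ∧
      |p' τ - A * ((1 - sg (yy A τ (a τ) (p τ))) * Co (a τ)
        + 3 * sg (yy A τ (a τ) (p τ)) * Co (a τ - τ))| ≤ 1 + G)

def P_J1 : Prop := ∀ G : ℝ, 0 ≤ G → ∃ A0 : ℝ, ∀ A : ℝ, A0 ≤ A → ∀ a p a' p' : ℝ → ℝ,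
  Sys A G a p a' p' (-1 / 2) (-1 / 500) →
  |a (-1 / 2)| ≤ 1 / 1000 → |p (-1 / 2) - A| ≤ A / 1000 →
  (∀ τ ∈ Icc (-1 / 2 : ℝ) (-1 / 500), R1 A τ (a τ) (p τ)) ∧
  |a (-1 / 500) - a (-1 / 2)| ≤ 1 / 50000 ∧
  |p (-1 / 500) - p (-1 / 2) - A * (1 / 2 - 1 / 500)| ≤ A / 50000

def P_J2 : Prop := ∀ G : ℝ, 0 ≤ G → ∃ A0 : ℝ, ∀ A : ℝ, A0 ≤ A → ∀ a p a' p' : ℝ → ℝ,
  Sys A G a p a' p' (-1 / 500) (1 / 500) →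
  ∀ a1 Q1 : ℝ, a (-1 / 500) = a1 → p (-1 / 500) = A * (3 / 2 - 1 / 500 + Q1) →
  |a1| ≤ 51 / 50000 → |Q1| ≤ 51 / 50000 →
  (∀ τ ∈ Icc (-1 / 500 : ℝ) (1 / 500), R1 A τ (a τ) (p τ)) ∧
  |a (1 / 500) - 1 / 500 - (2 * a1 + Q1) / 4| ≤ 1 / 50000 ∧
  |p (1 / 500) - A * (3 / 2 + 3 / 500 + (3 / 2 * Q1 - a1))| ≤ A / 50000

def P_J3 : Prop := ∀ G : ℝ, 0 ≤ G → ∃ A0 : ℝ, ∀ A : ℝ, A0 ≤ A → ∀ a p a' p' : ℝ → ℝ,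
  Sys A G a p a' p' (1 / 500) (1 / 2) →
  |a (1 / 500) - 1 / 500| ≤ 8 / 10000 → |p (1 / 500) - A * (3 / 2 + 3 / 500)| ≤ 26 / 10000 * A →
  (∀ τ ∈ Icc (1 / 500 : ℝ) (1 / 2), R3 A τ (a τ) (p τ)) ∧
  |(a (1 / 2) - 1 / 2) - (a (1 / 500) - 1 / 500)| ≤ 1 / 50000 ∧
  |p (1 / 2) - p (1 / 500) - 3 * A * (1 / 2 - 1 / 500)| ≤ 3 * A / 50000

def P_STEP : Prop := ∀ G : ℝ, 0 ≤ G → ∃ A0 : ℝ, ∀ A : ℝ, A0 ≤ A → ∀ a p a' p' : ℝ → ℝ,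
  Sys A G a p a' p' (-1 / 2) (1 / 2) →
  |a (-1 / 2)| ≤ 1 / 1000 → |p (-1 / 2) - A| ≤ A / 1000 →
  (∀ τ ∈ Icc (-1 / 2 : ℝ) (1 / 2), R1 A τ (a τ) (p τ) ∨ R3 A τ (a τ) (p τ)) ∧
  |a (1 / 2) - 1 / 2| ≤ 1 / 1000 ∧ |p (1 / 2) - 3 * A| ≤ 3 * A / 1000

/-- every solution of the one-dimensional system with a bounded extra force that starts in the box
of level `k0` accelerates for ever. -/
def P_CORE : Prop := ∀ G : ℝ, 0 ≤ G → ∃ k0 : ℕ, ∀ x p g : ℝ → ℝ,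
  (∀ t, HasDerivAt x (hp (x t) (p t) t) t ∧ HasDerivAt p (fo (x t) (p t) t + g t) t ∧ |g t| ≤ G) →
  ∀ N : ℤ, |x (k0 + 1 / 2) - k0 * (k0 + 1 / 2) - N| ≤ 1 / 1000 →
  |p (k0 + 1 / 2) - 3 ^ k0| ≤ 3 ^ k0 / 1000 →
  ∀ k : ℕ, k0 ≤ k → ∀ t ∈ Icc ((k : ℝ) + 1 / 2) (k + 3 / 2), (k : ℝ) - 1 ≤ hp (x t) (p t) t

/-! ### Lagrangian side -/

/-- `Z^n x Z` periodicity. -/
def PerF {n : ℕ} (f : (Fin n → ℝ) → ℝ → ℝ) : Prop :=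
  ∀ (x : Fin n → ℝ) (t : ℝ) (k : Fin n → ℤ) (l : ℤ), f (fun i => x i + k i) (t + l) = f x t

def PerL {n : ℕ} (L : (Fin n → ℝ) → (Fin n → ℝ) → ℝ → ℝ) : Prop :=
  ∀ (x v : Fin n → ℝ) (t : ℝ) (k : Fin n → ℤ) (l : ℤ),
    L (fun i => x i + k i) v (t + l) = L x v t

/-- partial derivative of `L` in `v_i`. -/
noncomputable def Lv {n : ℕ} (L : (Fin n → ℝ) → (Fin n → ℝ) → ℝ → ℝ) (i : Fin n)
    (x v : Fin n → ℝ) (t : ℝ) : ℝ := deriv (fun s => L x (Function.update v i s) t) (v i)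

/-- partial derivative of `L` in `x_i`. -/
noncomputable def Lx {n : ℕ} (L : (Fin n → ℝ) → (Fin n → ℝ) → ℝ → ℝ) (i : Fin n)
    (x v : Fin n → ℝ) (t : ℝ) : ℝ := deriv (fun s => L (Function.update x i s) v t) (x i)

/-- partial derivative of `f` in `x_i`. -/
noncomputable def Df {n : ℕ} (f : (Fin n → ℝ) → ℝ → ℝ) (i : Fin n) (x : Fin n → ℝ) (t : ℝ) : ℝ :=
  deriv (fun s => f (Function.update x i s) t) (x i)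

/-- `γ` is an orbit of the Euler-Lagrange flow of `L` defined for all times. -/
def IsEL {n : ℕ} (L : (Fin n → ℝ) → (Fin n → ℝ) → ℝ → ℝ) (γ : ℝ → (Fin n → ℝ)) : Prop :=
  (∀ t, DifferentiableAt ℝ γ t) ∧
  ∀ (t : ℝ) (i : Fin n), HasDerivAt (fun s => Lv L i (γ s) (deriv γ s) s)
    (Lx L i (γ t) (deriv γ t) t) t

def C2 {n : ℕ} (f : (Fin n → ℝ) → ℝ → ℝ) : Prop :=
  ContDiff ℝ 2 (fun q : (Fin n → ℝ) × ℝ => f q.1 q.2)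

/-- the gradient of a periodic `C^2` potential is bounded. -/
def P_GB : Prop := ∀ (n : ℕ) (f : (Fin n → ℝ) → ℝ → ℝ), C2 f → PerF f →
  ∃ G : ℝ, 0 ≤ G ∧ ∀ (i : Fin n) (x : Fin n → ℝ) (t : ℝ), |Df f i x t| ≤ G

/-- global existence for the Hamiltonian system with an additional potential. -/
def P_COMPL : Prop := ∀ (n : ℕ) (f : (Fin n → ℝ) → ℝ → ℝ), C2 f → PerF f →
  ∀ (t0 : ℝ) (x0 p0 : Fin n → ℝ), ∃ X P : ℝ → (Fin n → ℝ), X t0 = x0 ∧ P t0 = p0 ∧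
    ∀ t, HasDerivAt X (fun i => hp (X t i) (P t i) t) t ∧
      HasDerivAt P (fun i => fo (X t i) (P t i) t + Df f i (X t) t) t

/-- Tonelli: smooth, periodic, positive definite fibre Hessian, superlinear. -/
def Tonelli {n : ℕ} (L : (Fin n → ℝ) → (Fin n → ℝ) → ℝ → ℝ) : Prop :=
  ContDiff ℝ (⊤ : ℕ∞) (fun q : (Fin n → ℝ) × (Fin n → ℝ) × ℝ => L q.1 q.2.1 q.2.2) ∧
  PerL L ∧
  (∀ (x v : Fin n → ℝ) (t : ℝ) (w : Fin n → ℝ), w ≠ 0 →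
    0 < deriv (deriv (fun s : ℝ => L x (v + s • w) t)) 0) ∧
  (∀ K : ℝ, ∃ B : ℝ, ∀ (x v : Fin n → ℝ) (t : ℝ), K * ‖v‖ - B ≤ L x v t) ∧
  (∀ (t0 : ℝ) (x0 v0 : Fin n → ℝ), ∃ γ : ℝ → (Fin n → ℝ), IsEL L γ ∧ γ t0 = x0 ∧ deriv γ t0 = v0)

def P_MAIN : Prop := ∀ n : ℕ, ∃ L : (Fin n → ℝ) → (Fin n → ℝ) → ℝ → ℝ, Tonelli L ∧
  ∀ f : (Fin n → ℝ) → ℝ → ℝ, C2 f → PerF f →
    (∀ (t0 : ℝ) (x0 v0 : Fin n → ℝ), ∃ γ : ℝ → (Fin n → ℝ),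
      IsEL (fun x v t => L x v t + f x t) γ ∧ γ t0 = x0 ∧ deriv γ t0 = v0) ∧
    ∃ (t0 : ℝ) (U : Set ((Fin n → ℝ) × (Fin n → ℝ))), IsOpen U ∧ U.Nonempty ∧
      ∀ γ : ℝ → (Fin n → ℝ), IsEL (fun x v t => L x v t + f x t) γ → (γ t0, deriv γ t0) ∈ U →
        ∀ i : Fin n, Tendsto (fun t => deriv γ t i) atTop atTop

end Pool.Agent.W774.TL
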