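import Pool.Agent.W774.TL.Stm

set_option autoImplicit false

namespace Pool.Agent.W774.TL

open Set Filter Topology

lemma S_abs (u : ℝ) : |S u| ≤ 1 / 4 := by
  unfold S
  have hpi : 3 < Real.pi := Real.pi_gt_three
  rw [abs_div, abs_of_pos (by positivity : 0 < 2 * Real.pi), div_le_iff₀ (by positivity)]
  have := Real.abs_sin_le_one (2 * Real.pi * u)
  linarith

theorem sum_thm : P_SUM := by
  intro k R
  refine ⟨fun j => ((3 : ℝ) ^ j.natAbs) ^ k * Real.exp (R * (j.natAbs : ℝ) - (3 : ℝ) ^ j.natAbs / 2),
    ?_, ?_⟩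
  · have hg : Summable (fun n : ℕ => ((3 : ℝ) ^ n) ^ k * Real.exp (R * (n : ℝ) - (3 : ℝ) ^ n / 2)) := by
      apply summable_of_ratio_test_tendsto_lt_one (l := 0) (by norm_num)
      · exact Eventually.of_forall fun n => by positivity
      · have e : (fun n : ℕ => ‖((3 : ℝ) ^ (n + 1)) ^ k * Real.exp (R * ((n + 1 : ℕ) : ℝ) - (3 : ℝ) ^ (n + 1) / 2)‖
            / ‖((3 : ℝ) ^ n) ^ k * Real.exp (R * (n : ℝ) - (3 : ℝ) ^ n / 2)‖)
            = fun n : ℕ => (3 : ℝ) ^ k * Real.exp (R - (3 : ℝ) ^ n) := by
          funext n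
          rw [Real.norm_of_nonneg (by positivity), Real.norm_of_nonneg (by positivity)]
          rw [mul_div_mul_comm, ← div_pow, ← Real.exp_sub]
          congr 1
          · congr 1
            rw [pow_succ]
            field_simp
          · congr 1
            push_cast
            ring
        rw [e]
        have h1 : Tendsto (fun n : ℕ => R - (3 : ℝ) ^ n) atTop atBot := by
          have h0 : Tendsto (fun n : ℕ => -((3 : ℝ) ^ n)) atTop atBot :=
            tendsto_neg_atTop_atBot.comp (tendsto_pow_atTop_atTop_of_one_lt (by norm_num))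
          have := tendsto_atBot_add_const_left atTop R h0
          refine this.congr fun n => ?_
          ring
        have h2 := (Real.tendsto_exp_atBot.comp h1).const_mul ((3 : ℝ) ^ k)
        simpa using h2
    apply Summable.of_nat_of_neg
    · simpa using hg
    · simpa using hg
  · intro j x p t hp
    unfold E V
    have hn : |(j : ℝ)| = (j.natAbs : ℝ) := by
      rw [← Int.cast_abs, Int.abs_eq_natAbs]; simp
    apply mul_le_mul_of_nonneg_left _ (by positivity)
    apply Real.exp_le_exp.2
    have h1 : (j : ℝ) * p ≤ R * (j.natAbs : ℝ) := by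
      calc (j : ℝ) * p ≤ |(j : ℝ) * p| := le_abs_self _
        _ = |p| * |(j : ℝ)| := by rw [abs_mul, mul_comm]
        _ ≤ R * (j.natAbs : ℝ) := by
          rw [hn]
          exact mul_le_mul_of_nonneg_right hp (by positivity)
    have h2 := (abs_le.1 (S_abs (x - j * t))).1
    have h3 : (3 : ℝ) ^ j.natAbs / 2 ≤ (3 : ℝ) ^ j.natAbs * (3 / 4 + S (x - j * t)) := by
      have : 0 < (3 : ℝ) ^ j.natAbs := by positivity
      nlinarith
    linarith

end Pool.Agent.W774.TL
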