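import Pool.Agent.W774.TL.Main2
import Pool.Agent.W774.TL.Sum
import Pool.Agent.W333.TL.SMOOTH
import Pool.Agent.W740.TL.DER
import Pool.Agent.W891.TL.CVX
import Pool.Agent.W819.TL.SUP
import Pool.Agent.W583.TL.Grow
import Pool.Agent.W236.TL.LEG
import Pool.Agent.W509.TL.DOM1
import Pool.Agent.W234.TL.Dom3
import Pool.Agent.W594.TL.Two
import Pool.Agent.W705.TL.J1
import Pool.Agent.W775.TL.J2
import Pool.Agent.W103.TL.J3
import Pool.Agent.W700.TL.STEP
import Pool.Agent.W764.TL.Core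
import Pool.Agent.W787.TL.GB
import Pool.Agent.W599.TL.Compl

set_option autoImplicit false

namespace Pool.Agent.W774.TL

theorem smooth : P_SMOOTH := Pool.Agent.W333.TL.SMOOTH.smooth_thm sum_thm
theorem der : P_DER := Pool.Agent.W740.TL.der_thm sum_thm
theorem two : P_TWO :=
  Pool.Agent.W594.TL.two_thm sum_thm Pool.Agent.W509.TL.DOM1.dom1_thm Pool.Agent.W234.TL.dom3_thm
theorem step : P_STEP :=
  Pool.Agent.W700.TL.step_thm Pool.Agent.W705.TL.J1.j1_thm Pool.Agent.W775.TL.J2.j2_thm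
    Pool.Agent.W103.TLJ3.j3_thm
theorem core : P_CORE := Pool.Agent.W764.TL.core_thm two step
theorem compl : P_COMPL :=
  Pool.Agent.W599.TL.compl_thm smooth der (Pool.Agent.W583.TL.grow_thm sum_thm)
    Pool.Agent.W787.TL.gb_thm
theorem main : M2.P_MAIN2 :=
  M2.main_thm smooth der (Pool.Agent.W891.TL.cvx_thm sum_thm) (Pool.Agent.W819.TL.sup_thm sum_thm)
    Pool.Agent.W236.TL.LEG.leg_thm core Pool.Agent.W787.TL.gb_thm compl

end Pool.Agent.W774.TL
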